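import Pool.Agent.H958.RL.Stm

/-!
# DIAG: one exponent function for all sequences
-/

set_option autoImplicit false

namespace Pool.Agent.H120.RL.Diag

open Finset Filter Topology

theorem main : Pool.Agent.H958.RL.S_DIAG := by
  classical
  intro Φ h1 h2
  have hε0 : ∀ j : ℕ, (0 : ℝ) < 1 / ((j : ℝ) + 2) := fun j => by positivity
  have hε1 : ∀ j : ℕ, 1 / ((j : ℝ) + 2) ≤ 1 / 2 := by
    intro j
    have : (0 : ℝ) ≤ j := Nat.cast_nonneg _
    exact one_div_le_one_div_of_le (by norm_num) (by linarith)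
  choose c0 hc01 hc0 using fun j : ℕ => h2 (1 / ((j : ℝ) + 2)) (hε0 j) (hε1 j)
  choose N hN using fun j : ℕ => hc0 j (1 / ((j : ℝ) + 1)) (by positivity)
  obtain ⟨C, hC⟩ : ∃ C : ℕ → ℝ, ∀ j, C j = ∑ i ∈ range (j + 1),
      (max (c0 i) (Real.log (N i + 1)) + 1) := ⟨_, fun _ => rfl⟩
  have hterm : ∀ i, 1 ≤ max (c0 i) (Real.log (N i + 1)) := fun i =>
    (hc01 i).trans (le_max_left _ _)
  have hCmax : ∀ j, max (c0 j) (Real.log (N j + 1)) ≤ C j := by
    intro j
    rw [hC, sum_range_succ]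
    have h : 0 ≤ ∑ i ∈ range j, (max (c0 i) (Real.log (N i + 1)) + 1) :=
      sum_nonneg fun i _ => by linarith [hterm i]
    linarith
  have hCj : ∀ j : ℕ, (j : ℝ) + 1 ≤ C j := by
    intro j
    rw [hC]
    calc (j : ℝ) + 1 = ∑ _i ∈ range (j + 1), (1 : ℝ) := by
          rw [sum_const, card_range, nsmul_eq_mul, mul_one]; push_cast; ring
      _ ≤ _ := sum_le_sum fun i _ => by linarith [hterm i]
  have hC0 : ∀ j, C 0 ≤ C j := by
    intro j
    rw [hC, hC]
    refine sum_le_sum_of_subset_of_nonneg (range_mono (by omega)) fun i _ _ => ?_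
    linarith [hterm i]
  obtain ⟨J, hJ⟩ : ∃ J : ℝ → ℕ, ∀ c, J c = Nat.findGreatest (fun j => C j ≤ c) ⌊c⌋₊ :=
    ⟨_, fun _ => rfl⟩
  have hJle : ∀ (c : ℝ) (j : ℕ), C j ≤ c → j ≤ J c := by
    intro c j h
    rw [hJ]
    refine Nat.le_findGreatest ?_ h
    apply Nat.le_floor
    have := hCj j
    linarith
  have hJspec : ∀ c : ℝ, C 0 ≤ c → C (J c) ≤ c := by
    intro c h
    rw [hJ]
    exact Nat.findGreatest_spec (P := fun j => C j ≤ c) (Nat.zero_le _) h
  refine ⟨fun c => if C 0 ≤ c then 1 - 1 / ((J c : ℝ) + 2) else 1 / (2 * c), ?_, ?_, ?_⟩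
  · intro c hc
    show 0 < (if C 0 ≤ c then 1 - 1 / ((J c : ℝ) + 2) else 1 / (2 * c))
    split_ifs with h
    · have := hε1 (J c)
      linarith
    · have : 0 < c := by linarith
      positivity
  · rw [Metric.tendsto_atTop]
    intro ε hε
    obtain ⟨j, hj⟩ := exists_nat_one_div_lt hε
    refine ⟨C j, fun c hc => ?_⟩
    have hc' : C j ≤ c := hc
    have h3 : C 0 ≤ c := (hC0 j).trans hc'
    show dist (if C 0 ≤ c then 1 - 1 / ((J c : ℝ) + 2) else 1 / (2 * c)) 1 < ε
    rw [if_pos h3, Real.dist_eq]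
    have h4 : (1 : ℝ) - 1 / ((J c : ℝ) + 2) - 1 = -(1 / ((J c : ℝ) + 2)) := by ring
    rw [h4, abs_neg, abs_of_pos (hε0 _)]
    have h5 : (j : ℝ) ≤ J c := by exact_mod_cast hJle c j hc'
    have h6 : (0 : ℝ) ≤ j := Nat.cast_nonneg _
    refine lt_of_le_of_lt ?_ hj
    exact one_div_le_one_div_of_le (by linarith) (by linarith)
  · intro c hc η' hη'
    obtain ⟨j0, hj0⟩ := exists_nat_one_div_lt hη'
    obtain ⟨N1, hN1⟩ := h1 η' hη'
    choose M hM using fun j : ℕ => hc0 j η' hη'
    have hsup : ∀ j ≤ j0, M j ≤ (range (j0 + 1)).sup M := fun j hj =>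
      le_sup (f := M) (mem_range.2 (by omega))
    filter_upwards [hc, eventually_ge_atTop N1, eventually_ge_atTop ((range (j0 + 1)).sup M)]
      with n hn hnN hnM
    obtain ⟨hn1, hn2⟩ := hn
    show Φ n (c n) ((if C 0 ≤ c n then 1 - 1 / ((J (c n) : ℝ) + 2) else 1 / (2 * c n)) * c n) ≤ η'
    split_ifs with h
    · have h3 := hJspec _ h
      obtain ⟨j, hj⟩ : ∃ j, j = J (c n) := ⟨_, rfl⟩
      rw [← hj] at h3 ⊢
      have h4 := (hCmax j).trans h3
      have h5 : c0 j ≤ c n := (le_max_left _ _).trans h4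
      rcases le_or_gt j j0 with h6 | h6
      · exact hM j n ((hsup j h6).trans hnM) (c n) h5 hn2
      · have h7 : Real.log (N j + 1) ≤ Real.log n := ((le_max_right _ _).trans h4).trans hn2
        have h8 : (0 : ℝ) < n := by
          rcases Nat.eq_zero_or_pos n with h9 | h9
          · exfalso
            rw [h9] at hn2
            have h10 : Real.log ((0 : ℕ) : ℝ) = 0 := by rw [Nat.cast_zero, Real.log_zero]
            rw [h9] at hn1
            linarith
          · exact_mod_cast h9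
        have h9 : (N j : ℝ) + 1 ≤ n := (Real.log_le_log_iff (by positivity) h8).1 h7
        have h10 : N j ≤ n := by
          have h11 : (N j : ℝ) ≤ n := by linarith
          exact_mod_cast h11
        refine (hN j n h10 (c n) h5 hn2).trans ?_
        refine le_trans ?_ hj0.le
        have h11 : (j0 : ℝ) ≤ j := by exact_mod_cast h6.le
        have h12 : (0 : ℝ) ≤ j0 := Nat.cast_nonneg _
        exact one_div_le_one_div_of_le (by linarith) (by linarith)
    · have h3 : 1 / (2 * c n) * c n = 1 / 2 := by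
        have h4 : c n ≠ 0 := by
          intro h5
          rw [h5] at hn1
          linarith
        field_simp
      rw [h3]
      exact hN1 n hnN (c n) hn1 hn2

end Pool.Agent.H120.RL.Diag
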